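import Pool.Agent.H5.FR.Defs

/-!
# Project URB (MP_f18ce0_lc): a universal barrier for rank methods

Part 1: chains with bounded partial sums for all real weights in a family of polynomial size.
The random structures `Om`, blocks `Blk`, `part`, `sub`, `un`, `pw`, `sel`, `Fam` are those of
project FRK (`Pool.Agent.H5.FR.Defs`).

Part 2: matrix tuples (semistability, operator scaling).

Part 3: tensor trains and ranks.

Part 4: polynomials and circuits.
-/

set_option autoImplicit false

namespace Pool.Agent.H5.FR2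

open Finset Pool.Agent.H5.FR Pool.Agent.H80

/-! ### Part 1 -/

section

variable {V : Type} [Fintype V] [DecidableEq V] {b r : ℕ}

/-- sum of the weights -/
noncomputable def ws (x : V → ℝ) (c : Finset V) : ℝ := ∑ v ∈ c, x v

/-- sum of the squares of the weights -/
noncomputable def wq (x : V → ℝ) (c : Finset V) : ℝ := ∑ v ∈ c, x v ^ 2

/-- the size of the fluctuations of a block with expected sum of squares `P` -/
noncomputable def rho (lam : ℕ) (P : ℝ) : ℝ := √(P + 4 * (lam : ℝ) ^ 2)

/-- expected sum of squares of a block of height `h` -/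
noncomputable def lev (β : ℕ) (p : ℝ) (h : ℕ) : ℝ := p * ((β : ℝ) ^ 2) ^ h

/-- the block `c` is regular for the expected size `w ^ 2` and the expected sum of squares `P` -/
def Rng (x : V → ℝ) (lam : ℕ) (w P : ℝ) (c : Finset V) : Prop :=
  |(c.card : ℝ) - w ^ 2| ≤ lam * w ∧ |wq x c - P| ≤ lam * rho lam P ∧ |ws x c| ≤ lam * rho lam P

/-- total surplus more than `M` of both signs in the parts of `c` -/
def Mass (x : V → ℝ) (c : Finset V) (g : V → Fin b) (M : ℝ) : Prop :=
  M < ∑ k, max (ws x (part c g k)) 0 ∧ M < ∑ k, max (-(ws x (part c g k))) 0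

/-- the block is good: it is regular and for some alternative the parts are good and, if they are
heavy, have enough surplus of both signs -/
def Good (x : V → ℝ) (lam β : ℕ) (u₀ p : ℝ) : (h : ℕ) → Blk V b r h → Prop
  | 0, A => Rng x lam u₀ p A.1
  | h + 1, A => Rng x lam (u₀ * (β : ℝ) ^ (h + 1)) (lev β p (h + 1)) A.1 ∧ ∃ i : Fin r,
      (4 * (lam : ℝ) ^ 2 ≤ lev β p h →
        Mass x A.1 (A.2 i).1 (lam * rho lam (lev β p (h + 1)))) ∧
      ∀ k, Good x lam β u₀ p h (sub A i k)

/-- `TS A D T`: `T` is an admissible beginning of the block `A` with offset `D`.  For a leaf and for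
a light block only `T = ∅` is admissible -/
def TS (x : V → ℝ) (lam β : ℕ) (u₀ p M : ℝ) : (h : ℕ) → Blk V b r h → ℝ → Finset V → Prop
  | 0, _, D, T => T = ∅ ∧ |D| ≤ M
  | h + 1, A, D, T => (lev β p h < 4 * (lam : ℝ) ^ 2 ∧ T = ∅ ∧ |D| ≤ M) ∨
      (4 * (lam : ℝ) ^ 2 ≤ lev β p h ∧
        ∃ (i : Fin r) (S : Finset (Fin b)) (e : Fin b) (Te : Finset V), e ∉ S ∧
          (∀ k, Good x lam β u₀ p h (sub A i k)) ∧ T = un A i S ∪ Te ∧
          TS x lam β u₀ p M h (sub A i e) (D + ws x (un A i S)) Te ∧
          |D + ws x (un A i S)| ≤ lam * rho lam (lev β p h) ∧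
          |D + ws x (un A i S) + ws x (sub A i e).1| ≤ lam * rho lam (lev β p h))

/-- `RReach x D C F X Y`: there is a chain from `X` to `Y` in `F`, each step adds one element, with
`|D + ws x Z| ≤ C` for all its sets `Z` -/
inductive RReach (x : V → ℝ) (D C : ℝ) (F : Finset (Finset V)) : Finset V → Finset V → Prop
  | refl {X : Finset V} (h : X ∈ F) (hb : |D + ws x X| ≤ C) : RReach x D C F X X
  | step {X Y : Finset V} {v : V} (h : RReach x D C F X Y) (hv : v ∉ Y) (hF : insert v Y ∈ F)
      (hb : |D + ws x (insert v Y)| ≤ C) : RReach x D C F X (insert v Y)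

end

/-- the conditions on the parameters -/
structure PH (lam β r : ℕ) : Prop where
  lam_pos : 1 ≤ lam
  big : 12 * lam ^ 2 < β
  tail : 64 * (β : ℝ) ^ 2 * Real.exp (-((lam : ℝ) ^ 2 / 32)) ≤ 1
  alt : 4 * β ^ 2 ≤ 2 ^ r

/-- the elements which the ordering `σ` puts at the places before `t` -/
def pre {d : ℕ} (σ : Equiv.Perm (Fin d)) (t : ℕ) : Finset (Fin d) :=
  univ.filter (fun i => ((σ.symm i : Fin d) : ℕ) < t)

/-! ### Part 2 -/

section

variable {n : ℕ} {X Y : Type} [Fintype X] [Fintype Y]

/-- the image of a subspace under a tuple of matrices -/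
noncomputable def img (B : Fin n → Matrix X Y ℂ) (U : Submodule ℂ (Y → ℂ)) :
    Submodule ℂ (X → ℂ) := ⨆ a, U.map (Matrix.mulVecLin (B a))

/-- the tuple of matrices is semistable -/
def SS (B : Fin n → Matrix X Y ℂ) : Prop := ∀ U : Submodule ℂ (Y → ℂ),
  Fintype.card X * Module.finrank ℂ U ≤ Fintype.card Y * Module.finrank ℂ (img B U)

/-- the sum of the `B a * (B a)ᴴ` -/
noncomputable def KK {ι : Type} [Fintype ι] (B : ι → Matrix X Y ℂ) : Matrix X X ℂ :=
  ∑ a, B a * (B a).conjTranspose

/-- the sum of the `(B a)ᴴ * B a` -/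
noncomputable def LL {ι : Type} [Fintype ι] (B : ι → Matrix X Y ℂ) : Matrix Y Y ℂ :=
  ∑ a, (B a).conjTranspose * B a

/-- the trace of `K`, as a real number -/
noncomputable def tr1 {Z : Type} [Fintype Z] (K : Matrix Z Z ℂ) : ℝ := K.trace.re

/-- the trace of `K * K`, as a real number -/
noncomputable def tr2 {Z : Type} [Fintype Z] (K : Matrix Z Z ℂ) : ℝ := (K * K).trace.re

end

/-! ### Part 3 -/

/-- eight complex numbers with the moments of order up to four of a standard complex Gaussian -/
noncomputable def zz (k : Fin 8) : ℂ := if (k : ℕ) < 4 then 0 else (√2 : ℝ) * Complex.I ^ (k : ℕ)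

/-- the random combination of the matrices `B c` -/
noncomputable def mix {X Y C : Type} [Fintype C] (B : C → Matrix X Y ℂ) (z : C → ℂ) :
    Matrix X Y ℂ := ∑ c, z c • B c

/-- the tensor train of length `d` with the matrices `A i a` and the cores `g i` -/
noncomputable def tt {n W : ℕ} : (d : ℕ) → (X Y : Fin d → Type) →
    (∀ i, Fin n → Matrix (X i) (Y i) ℂ) → (Fin d → Fin W → Fin n → Fin W → ℂ) → Fin W →
    Matrix (∀ i, X i) (∀ i, Y i) ℂ
  | 0, _, _, _, _, u => fun _ _ => if (u : ℕ) = 0 then 1 else 0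
  | d + 1, X, Y, A, g, v => fun p q => ∑ u, ∑ a, g (Fin.last d) u a v *
      tt d (fun i => X i.castSucc) (fun i => Y i.castSucc) (fun i => A i.castSucc)
        (fun i => g i.castSucc) u (fun i => p i.castSucc) (fun i => q i.castSucc) *
      A (Fin.last d) a (p (Fin.last d)) (q (Fin.last d))

/-- the expected second moments of a tensor train -/
noncomputable def pq (W : ℝ) : (d : ℕ) → (Fin d → ℝ) → (Fin d → ℝ) → ℝ × ℝ
  | 0, _, _ => (1, 1)
  | d + 1, ξ, η =>
    let s := pq W d (fun i => ξ i.castSucc) (fun i => η i.castSucc)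
    (W ^ 2 * ξ (Fin.last d) * s.1 + W * η (Fin.last d) * s.2,
      W ^ 2 * η (Fin.last d) * s.2 + W * ξ (Fin.last d) * s.1)

/-! ### Part 4 -/

/-- the matrix of the set-multilinear part of the polynomial `g` for the matrices `A i a` -/
noncomputable def app {d n : ℕ} {X Y : Fin d → Type} (A : ∀ i, Fin n → Matrix (X i) (Y i) ℂ)
    (g : MvPolynomial (Fin d × Fin n) ℂ) : Matrix (∀ i, X i) (∀ i, Y i) ℂ :=
  fun p q => ∑ a : Fin d → Fin n,
    g.coeff (∑ i, Finsupp.single (i, a i) 1) * ∏ i, A i (a i) (p i) (q i)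

/-- the polynomials of a branching program whose states are pairs of a set in `F` and a number less
than `W` -/
noncomputable def QQ {K : Type} [CommRing K] {d n W : ℕ} (F : Finset (Finset (Fin d)))
    (w : Finset (Fin d) → Fin d → Fin W → Fin n → Fin W → K) :
    ℕ → Finset (Fin d) → Fin W → MvPolynomial (Fin d × Fin n) K
  | 0, X, u => if X = ∅ ∧ (u : ℕ) = 0 then 1 else 0
  | j + 1, X, v => ∑ i ∈ X.filter (fun i => X.erase i ∈ F), ∑ u, ∑ a,
      MvPolynomial.C (w X i u a v) * MvPolynomial.X (i, a) * QQ F w j (X.erase i) u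

/-- every monomial of `f` is a product of one variable from each of the `d` sets of variables -/
def SetMul {K : Type} [CommRing K] {d n : ℕ} (f : MvPolynomial (Fin d × Fin n) K) : Prop :=
  ∀ m ∈ f.support, ∃ a : Fin d → Fin n, m = ∑ i, Finsupp.single (i, a i) 1

/-- the circuit is set-multilinear: each node `v` has a set `S v` of indices, a variable with index
`i` the set `{i}`, a constant other than `0` the set `∅`, the two predecessors of a sum gate have
the same set as the gate, and the set of a product gate is the disjoint union of the sets of its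
predecessors -/
def SMC {K : Type} [Zero K] {d n : ℕ} (D : Circuit K (Fin d × Fin n)) : Prop :=
  ∃ S : D.V → Finset (Fin d), (∀ v i a, D.gate v = Gate.var (i, a) → S v = {i}) ∧
    (∀ v c, D.gate v = Gate.const c → c ≠ 0 → S v = ∅) ∧
    (∀ v a b, D.gate v = Gate.add a b → S a = S v ∧ S b = S v) ∧
    (∀ v a b, D.gate v = Gate.mul a b → Disjoint (S a) (S b) ∧ S v = S a ∪ S b)

end Pool.Agent.H5.FR2
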