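import Pool.Agent.H5.FR2.Stmts

/-!
# Project URB, module SEG: the chain for two consecutive blocks
-/

set_option autoImplicit false
set_option linter.unusedSectionVars false

namespace Pool.Agent.H5.FR2

open Finset Pool.Agent.H5.FR Pool.Agent.H80

section basic

variable {V : Type} [Fintype V] [DecidableEq V] {b r : ℕ} {x : V → ℝ}

theorem ws_union {c d : Finset V} (h : Disjoint c d) : ws x (c ∪ d) = ws x c + ws x d := by
  simp only [ws]; exact Finset.sum_union h

theorem ws_empty : ws x (∅ : Finset V) = 0 := by simp [ws]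

theorem ws_biUnion {ι : Type} [DecidableEq ι] {S : Finset ι} {f : ι → Finset V}
    (h : (S : Set ι).PairwiseDisjoint f) : ws x (S.biUnion f) = ∑ k ∈ S, ws x (f k) := by
  simp only [ws]; exact Finset.sum_biUnion h

theorem RReach.mono {D C : ℝ} {F G : Finset (Finset V)} (hFG : F ⊆ G) {X Y : Finset V}
    (h : RReach x D C F X Y) : RReach x D C G X Y := by
  induction h with
  | refl h hb => exact RReach.refl (hFG h) hb
  | step _ hv hF hb ih => exact RReach.step ih hv (hFG hF) hb

theorem RReach.trans {D C : ℝ} {F : Finset (Finset V)} {X Y Z : Finset V}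
    (h1 : RReach x D C F X Y) (h2 : RReach x D C F Y Z) : RReach x D C F X Z := by
  induction h2 with
  | refl _ _ => exact h1
  | step _ hv hF hb ih => exact RReach.step ih hv hF hb

theorem RReach.union {D D' C : ℝ} {F G : Finset (Finset V)} {W X Y : Finset V}
    (h : RReach x D' C F X Y) (hD : D' = D + ws x W)
    (hd : Disjoint W Y) (hG : ∀ Z ∈ F, W ∪ Z ∈ G) : RReach x D C G (W ∪ X) (W ∪ Y) := by
  induction h with
  | refl h hb =>
    refine RReach.refl (hG _ h) ?_
    rw [ws_union hd, ← add_assoc, ← hD]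
    exact hb
  | @step Y' v h hv hF hb ih =>
    have hvW : v ∉ W := fun hxw => (Finset.disjoint_left.1 hd hxw) (by simp)
    have hd' : Disjoint W Y' := by
      refine Finset.disjoint_left.2 fun z hz hz' => (Finset.disjoint_left.1 hd hz) ?_
      simp [hz']
    have e : W ∪ insert v Y' = insert v (W ∪ Y') := by
      ext z; simp only [Finset.mem_union, Finset.mem_insert]; tauto
    rw [e]
    refine RReach.step (ih hd') ?_ ?_ ?_
    · simp [hv, hvW]
    · rw [← e]; exact hG _ hF
    · rw [← e, ws_union hd, ← add_assoc, ← hD]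
      exact hb

/-- chain in the set of all subsets of a small set -/
theorem rreach_leaf (hx : ∀ v, |x v| ≤ 1) (G : Finset (Finset V)) (D M C : ℝ) (hD : |D| ≤ M) :
    ∀ (m : ℕ) (E : Finset V), E.card = m → M + m ≤ C →
      (∀ Z, Z ⊆ E → Z ∈ G) → RReach x D C G ∅ E := by
  intro m
  induction m with
  | zero =>
    intro E hE hC hG
    rw [Finset.card_eq_zero] at hE
    subst hE
    refine RReach.refl (hG ∅ (Finset.Subset.refl _)) ?_
    rw [ws_empty, add_zero]
    simpa using hD.trans (by simpa using hC)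
  | succ m ih =>
    intro E hE hC hG
    have hne : E.Nonempty := by
      rw [← Finset.card_pos, hE]; omega
    obtain ⟨v, hv⟩ := hne
    have e0 : insert v (E.erase v) = E := Finset.insert_erase hv
    have hcard : (E.erase v).card = m := by
      rw [Finset.card_erase_of_mem hv, hE]; rfl
    have ih' := ih (E.erase v) hcard (by push_cast at hC; linarith)
      (fun Z hZ => hG Z (hZ.trans (Finset.erase_subset _ _)))
    rw [← e0]
    refine RReach.step ih' (Finset.notMem_erase v E) ?_ ?_
    · rw [e0]; exact hG _ (Finset.Subset.refl _)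
    · rw [e0]
      have h1 : |ws x E| ≤ E.card := by
        unfold ws
        calc |∑ v ∈ E, x v| ≤ ∑ v ∈ E, |x v| := Finset.abs_sum_le_sum_abs _ _
          _ ≤ ∑ v ∈ E, (1 : ℝ) := Finset.sum_le_sum (fun v _ => hx v)
          _ = E.card := by simp
      calc |D + ws x E| ≤ |D| + |ws x E| := abs_add_le _ _
        _ ≤ M + E.card := add_le_add hD h1
        _ ≤ C := by rw [hE]; exact hC

theorem seg_part_subset (c : Finset V) (g : V → Fin b) (k : Fin b) : part c g k ⊆ c :=
  Finset.filter_subset _ _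

theorem seg_part_disjoint {c d : Finset V} {g : V → Fin b} {k l : Fin b} (h : k ≠ l) :
    Disjoint (part c g k) (part d g l) := by
  refine Finset.disjoint_left.2 fun z hz hz' => ?_
  simp only [part, Finset.mem_filter] at hz hz'
  exact h (hz.2.symm.trans hz'.2)

theorem seg_sel_disjoint {h : ℕ} {A B : Blk V b r (h + 1)} (hAB : Disjoint A.1 B.1) (i j : Fin r)
    {s t : Bool × Fin b} (hst : s ≠ t) : Disjoint (sel A B i j s).1 (sel A B i j t).1 := by
  obtain ⟨s1, s2⟩ := s
  obtain ⟨t1, t2⟩ := t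
  cases s1 <;> cases t1
  · have hne : s2 ≠ t2 := fun h => hst (by rw [h])
    exact seg_part_disjoint hne
  · exact Finset.disjoint_of_subset_left (seg_part_subset _ _ _)
      (Finset.disjoint_of_subset_right (seg_part_subset _ _ _) hAB)
  · exact Finset.disjoint_of_subset_left (seg_part_subset _ _ _)
      (Finset.disjoint_of_subset_right (seg_part_subset _ _ _) hAB.symm)
  · have hne : s2 ≠ t2 := fun h => hst (by rw [h])
    exact seg_part_disjoint hne

theorem seg_biUnion_sel_disjoint {h : ℕ} {A B : Blk V b r (h + 1)} (hAB : Disjoint A.1 B.1)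
    (i j : Fin r) {S : Finset (Bool × Fin b)} {t : Bool × Fin b} (ht : t ∉ S) :
    Disjoint (S.biUnion (fun s => (sel A B i j s).1)) (sel A B i j t).1 := by
  rw [Finset.disjoint_biUnion_left]
  intro s hs
  exact seg_sel_disjoint hAB i j (fun h => ht (h ▸ hs))

theorem seg_mem_Fam_succ {M h : ℕ} {A B : Blk V b r (h + 1)} (i j : Fin r)
    (S : Finset (Bool × Fin b)) (p q : Bool × Fin b) {Z : Finset V}
    (hZ : Z ∈ Fam M h (sel A B i j p) (sel A B i j q)) :
    S.biUnion (fun s => (sel A B i j s).1) ∪ Z ∈ Fam M (h + 1) A B := by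
  unfold Fam
  exact Finset.mem_biUnion.2 ⟨(i, j, S, p, q), Finset.mem_univ _, Finset.mem_image.2 ⟨Z, hZ, rfl⟩⟩

end basic

section seg

variable {V : Type} [Fintype V] [DecidableEq V] {x : V → ℝ}

/-- the target condition -/
def Tgt (x : V → ℝ) (lam β : ℕ) (u₀ p M : ℝ) {b r h : ℕ} (B : Blk V b r h) (D : ℝ)
    (T : Finset V) : Prop :=
  (Good x lam β u₀ p h B ∧ TS x lam β u₀ p M h B D T) ∨
    (B.1 = ∅ ∧ |D| ≤ 2 * (lam : ℝ) ^ 2 ∧ T = ∅)

/-- the inductive hypothesis at height `h` -/
def SegAt (x : V → ℝ) (lam β r : ℕ) (u₀ p M : ℝ) (M' h : ℕ) : Prop :=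
  ∀ (A B : Blk V (β ^ 2) r h) (D : ℝ) (T T' : Finset V), Good x lam β u₀ p h A →
    TS x lam β u₀ p M h A D T → Disjoint A.1 B.1 → Tgt x lam β u₀ p M B (D + ws x A.1) T' →
    RReach x D (M + M') (Fam M' h A B) T (A.1 ∪ T')

theorem seg_path_aux {lam β r : ℕ} {u₀ p₀ M : ℝ} {M' h : ℕ}
    (IH : SegAt x lam β r u₀ p₀ M M' h)
    (hsub : ∀ (X : Blk V (β ^ 2) r h) D T, TS x lam β u₀ p₀ M h X D T → T ⊆ X.1)
    {Mb : ℝ} (hex : ∀ (X : Blk V (β ^ 2) r h), Good x lam β u₀ p₀ h X → ∀ D : ℝ, |D| ≤ Mb →
      ∃ T, TS x lam β u₀ p₀ M h X D T)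
    {A B : Blk V (β ^ 2) r (h + 1)} (hAB : Disjoint A.1 B.1) (i j : Fin r) (D₀ : ℝ) :
    ∀ (L : List (Bool × Fin (β ^ 2))) (S : Finset (Bool × Fin (β ^ 2)))
      (p q : Bool × Fin (β ^ 2)) (D Dq : ℝ) (T T' : Finset V),
      D = D₀ + ws x (S.biUnion (fun s => (sel A B i j s).1)) →
      (p :: L).Nodup → (∀ t ∈ p :: L, t ∉ S) → q ∉ S → q ∉ p :: L →
      (∀ t ∈ p :: L, Good x lam β u₀ p₀ h (sel A B i j t)) →
      TS x lam β u₀ p₀ M h (sel A B i j p) D T →
      PB (fun t => ws x (sel A B i j t).1) Mb (D + ws x (sel A B i j p).1) L →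
      Dq = D + ws x (sel A B i j p).1 + (L.map (fun t => ws x (sel A B i j t).1)).sum →
      Tgt x lam β u₀ p₀ M (sel A B i j q) Dq T' →
      RReach x D₀ (M + M') (Fam M' (h + 1) A B) (S.biUnion (fun s => (sel A B i j s).1) ∪ T)
        ((S ∪ insert p L.toFinset).biUnion (fun s => (sel A B i j s).1) ∪ T') := by
  intro L
  induction L with
  | nil =>
    intro S p q D Dq T T' hD₀ hnd hS hqS hqp hgood hT hPB hDq hTgt
    have hpS : p ∉ S := hS p (by simp)
    have hpq : p ≠ q := fun h => hqp (by simp [h])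
    simp only [List.map_nil, List.sum_nil, add_zero] at hDq
    subst hDq
    have r1 := IH _ _ D T T' (hgood p (by simp)) hT (seg_sel_disjoint hAB i j hpq) hTgt
    have hT'q : T' ⊆ (sel A B i j q).1 := by
      rcases hTgt with ⟨_, h2⟩ | ⟨_, _, h3⟩
      · exact hsub _ _ _ h2
      · rw [h3]; exact Finset.empty_subset _
    have r2 := r1.union (W := S.biUnion (fun s => (sel A B i j s).1))
      (G := Fam M' (h + 1) A B) hD₀ (by
        rw [Finset.disjoint_union_right]
        exact ⟨seg_biUnion_sel_disjoint hAB i j hpS,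
          Finset.disjoint_of_subset_right hT'q (seg_biUnion_sel_disjoint hAB i j hqS)⟩)
      (fun Z hZ => seg_mem_Fam_succ i j S p q hZ)
    have e : (S ∪ insert p ([] : List (Bool × Fin (β ^ 2))).toFinset).biUnion
        (fun s => (sel A B i j s).1) ∪ T' =
        S.biUnion (fun s => (sel A B i j s).1) ∪ ((sel A B i j p).1 ∪ T') := by
      rw [Finset.union_biUnion]
      simp [Finset.union_assoc]
    rw [e]; exact r2
  | cons f L ih =>
    intro S p q D Dq T T' hD₀ hnd hS hqS hqp hgood hT hPB hDq hTgt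
    have hpS : p ∉ S := hS p (by simp)
    have hfS : f ∉ S := hS f (by simp)
    have hpf : p ≠ f := by
      intro h
      rw [List.nodup_cons] at hnd
      exact hnd.1 (by simp [h])
    obtain ⟨hb, hPB'⟩ := hPB
    obtain ⟨Tf, hTf⟩ := hex _ (hgood f (by simp)) _ hb
    have hTfsub : Tf ⊆ (sel A B i j f).1 := hsub _ _ _ hTf
    have r1 := IH _ _ D T Tf (hgood p (by simp)) hT (seg_sel_disjoint hAB i j hpf)
      (Or.inl ⟨hgood f (by simp), hTf⟩)
    have r2 := r1.union (W := S.biUnion (fun s => (sel A B i j s).1))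
      (G := Fam M' (h + 1) A B) hD₀ (by
        rw [Finset.disjoint_union_right]
        exact ⟨seg_biUnion_sel_disjoint hAB i j hpS,
          Finset.disjoint_of_subset_right hTfsub (seg_biUnion_sel_disjoint hAB i j hfS)⟩)
      (fun Z hZ => seg_mem_Fam_succ i j S p f hZ)
    have r3 := ih (insert p S) f q (D + ws x (sel A B i j p).1) Dq Tf T'
      (by
        have hd := seg_biUnion_sel_disjoint hAB i j hpS
        rw [Finset.biUnion_insert, Finset.union_comm, ws_union hd, hD₀]
        ring)
      (List.nodup_cons.1 hnd).2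
      (by
        intro t ht
        rw [Finset.mem_insert, not_or]
        refine ⟨?_, hS t (List.mem_cons_of_mem _ ht)⟩
        rintro rfl
        exact (List.nodup_cons.1 hnd).1 ht)
      (by
        rw [Finset.mem_insert, not_or]
        exact ⟨fun h => hqp (by simp [h]), hqS⟩)
      (fun h => hqp (List.mem_cons_of_mem _ h))
      (fun t ht => hgood t (List.mem_cons_of_mem _ ht))
      hTf hPB'
      (by rw [hDq, List.map_cons, List.sum_cons]; ring)
      hTgt
    have e1 : S.biUnion (fun s => (sel A B i j s).1) ∪ ((sel A B i j p).1 ∪ Tf) =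
        (insert p S).biUnion (fun s => (sel A B i j s).1) ∪ Tf := by
      rw [Finset.biUnion_insert]
      ext z
      simp only [Finset.mem_union]
      tauto
    have e2 : (insert p S ∪ insert f L.toFinset) = (S ∪ insert p (f :: L).toFinset) := by
      rw [List.toFinset_cons]
      ext z
      simp only [Finset.mem_union, Finset.mem_insert]
      tauto
    rw [e1] at r2
    rw [e2] at r3
    exact r2.trans r3

theorem seg_node_core (hORD : ORDStmt) {lam β r : ℕ} {u₀ p₀ M : ℝ} {M' h : ℕ}
    (IH : SegAt x lam β r u₀ p₀ M M' h)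
    (hsub : ∀ (X : Blk V (β ^ 2) r h) D T, TS x lam β u₀ p₀ M h X D T → T ⊆ X.1)
    {Mb : ℝ} (hex : ∀ (X : Blk V (β ^ 2) r h), Good x lam β u₀ p₀ h X → ∀ D : ℝ, |D| ≤ Mb →
      ∃ T, TS x lam β u₀ p₀ M h X D T)
    (hRng : ∀ (X : Blk V (β ^ 2) r h), Good x lam β u₀ p₀ h X → |ws x X.1| ≤ Mb)
    {A B : Blk V (β ^ 2) r (h + 1)} (hAB : Disjoint A.1 B.1)
    (i j : Fin r) (S : Finset (Fin (β ^ 2))) (e : Fin (β ^ 2)) (Te : Finset V) (D : ℝ)
    (heS : e ∉ S) (hgA : ∀ k, Good x lam β u₀ p₀ h (sub A i k))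
    (hTe : TS x lam β u₀ p₀ M h (sub A i e) (D + ws x (un A i S)) Te)
    (hb : |D + ws x (un A i S) + ws x (sub A i e).1| ≤ Mb)
    (S' : Finset (Fin (β ^ 2))) (q : Fin (β ^ 2)) (Tq : Finset V) (hqS' : q ∉ S')
    (hgB : ∀ k ∈ S', Good x lam β u₀ p₀ h (sub B j k))
    (hb' : |D + ws x A.1 + ws x (un B j S')| ≤ Mb)
    (hTgt : Tgt x lam β u₀ p₀ M (sub B j q) (D + ws x A.1 + ws x (un B j S')) Tq) :
    RReach x D (M + M') (Fam M' (h + 1) A B) (un A i S ∪ Te) (A.1 ∪ (un B j S' ∪ Tq)) := by
  set R : Finset (Fin (β ^ 2)) := (univ \ S).erase e with hR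
  set F : Finset (Bool × Fin (β ^ 2)) := R.image (fun k => (false, k)) ∪
    S'.image (fun k => (true, k)) with hF
  have hdA : ∀ (Q : Finset (Fin (β ^ 2))), (Q : Set (Fin (β ^ 2))).PairwiseDisjoint
      (fun k => (sub A i k).1) := fun Q k _ l _ hkl => seg_part_disjoint hkl
  have hdB : ∀ (Q : Finset (Fin (β ^ 2))), (Q : Set (Fin (β ^ 2))).PairwiseDisjoint
      (fun k => (sub B j k).1) := fun Q k _ l _ hkl => seg_part_disjoint hkl
  have csA : ws x A.1 = ∑ k, ws x (sub A i k).1 := by
    rw [← ws_biUnion (hdA univ)]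
    congr 1
    ext z
    simp only [Finset.mem_biUnion, sub, part, Finset.mem_filter, Finset.mem_univ, true_and,
      exists_eq_right']
  have csS : ws x (un A i S) = ∑ k ∈ S, ws x (sub A i k).1 := ws_biUnion (hdA S)
  have csS' : ws x (un B j S') = ∑ k ∈ S', ws x (sub B j k).1 := ws_biUnion (hdB S')
  have hsplit : ∑ k, ws x (sub A i k).1 = ∑ k ∈ S, ws x (sub A i k).1 + ws x (sub A i e).1 +
      ∑ k ∈ R, ws x (sub A i k).1 := by
    have he : e ∈ univ \ S := by simp [heS]
    have h1 := Finset.add_sum_erase (univ \ S) (fun k => ws x (sub A i k).1) he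
    have h2 := Finset.sum_sdiff (f := fun k => ws x (sub A i k).1) (Finset.subset_univ S)
    rw [hR]
    linarith
  have sumF : ∑ t ∈ F, ws x (sel A B i j t).1 = ∑ k ∈ R, ws x (sub A i k).1 +
      ∑ k ∈ S', ws x (sub B j k).1 := by
    rw [hF, Finset.sum_union]
    · rw [Finset.sum_image (by intro a _ b _ h; simpa using h),
        Finset.sum_image (by intro a _ b _ h; simpa using h)]
      rfl
    · refine Finset.disjoint_left.2 fun z hz hz' => ?_
      simp only [Finset.mem_image] at hz hz'
      obtain ⟨a, _, rfl⟩ := hz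
      obtain ⟨b, _, hb⟩ := hz'
      simp at hb
  have hgood : ∀ t ∈ F, Good x lam β u₀ p₀ h (sel A B i j t) := by
    intro t ht
    rw [hF, Finset.mem_union] at ht
    rcases ht with ht | ht
    · obtain ⟨k, _, rfl⟩ := Finset.mem_image.1 ht
      exact hgA k
    · obtain ⟨k, hk, rfl⟩ := Finset.mem_image.1 ht
      exact hgB k hk
  obtain ⟨L, hL1, hL2, hL3⟩ := hORD _ F (fun t => ws x (sel A B i j t).1) Mb
    (D + ws x (un A i S) + ws x (sub A i e).1)
    (fun f hf => hRng _ (hgood f hf)) hb (by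
      have e0 : D + ws x (un A i S) + ws x (sub A i e).1 + ∑ f ∈ F, ws x (sel A B i j f).1 =
          D + ws x A.1 + ws x (un B j S') := by
        rw [sumF, csA, hsplit, csS, csS']; ring
      rw [e0]; exact hb')
  have hLF : ∀ t, t ∈ L ↔ t ∈ F := by
    intro t; rw [← hL2, List.mem_toFinset]
  have hmF : ∀ t, t ∈ F ↔ (t.1 = false ∧ t.2 ∈ R) ∨ (t.1 = true ∧ t.2 ∈ S') := by
    intro t
    obtain ⟨t1, t2⟩ := t
    rw [hF, Finset.mem_union, Finset.mem_image, Finset.mem_image]
    constructor
    · rintro (⟨k, hk, h⟩ | ⟨k, hk, h⟩)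
      · simp only [Prod.mk.injEq] at h
        exact Or.inl ⟨h.1.symm, h.2 ▸ hk⟩
      · simp only [Prod.mk.injEq] at h
        exact Or.inr ⟨h.1.symm, h.2 ▸ hk⟩
    · rintro (⟨h1, h2⟩ | ⟨h1, h2⟩)
      · exact Or.inl ⟨t2, h2, by simp only at h1; rw [h1]⟩
      · exact Or.inr ⟨t2, h2, by simp only at h1; rw [h1]⟩
  have e1 : (S.image (fun k => (false, k))).biUnion (fun s => (sel A B i j s).1) = un A i S := by
    rw [Finset.image_biUnion]; rfl
  have main := seg_path_aux IH hsub hex hAB i j D L (S.image (fun k => (false, k))) (false, e)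
    (true, q) (D + ws x (un A i S)) (D + ws x A.1 + ws x (un B j S')) Te Tq
    (by rw [e1])
    (by
      rw [List.nodup_cons]
      refine ⟨?_, hL1⟩
      rw [hLF, hmF]
      simp [hR])
    (by
      intro t ht
      rw [Finset.mem_image]
      rintro ⟨k, hk, rfl⟩
      rcases List.mem_cons.1 ht with h | h
      · simp only [Prod.mk.injEq, true_and] at h
        exact heS (h ▸ hk)
      · rw [hLF, hmF] at h
        simp [hR, hk] at h)
    (by simp)
    (by
      rw [List.mem_cons, not_or]
      refine ⟨by simp, ?_⟩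
      rw [hLF, hmF]
      simp [hqS'])
    (by
      intro t ht
      rcases List.mem_cons.1 ht with h | h
      · rw [h]; exact hgA e
      · exact hgood t ((hLF t).1 h))
    hTe hL3
    (by
      have e1 : (L.map (fun t => ws x (sel A B i j t).1)).sum =
          ∑ t ∈ F, ws x (sel A B i j t).1 := by
        rw [← hL2, List.sum_toFinset _ hL1]
      rw [e1, sumF, csA, hsplit, csS, csS']
      have e2 : (sel A B i j (false, e)).1 = (sub A i e).1 := rfl
      rw [e2]; ring)
    hTgt
  have e2 : (S.image (fun k => (false, k)) ∪ insert (false, e) L.toFinset).biUnion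
      (fun s => (sel A B i j s).1) ∪ Tq = A.1 ∪ (un B j S' ∪ Tq) := by
    rw [← Finset.union_assoc]
    congr 1
    ext z
    rw [hL2]
    simp only [Finset.mem_biUnion, Finset.mem_union, Finset.mem_insert, Finset.mem_image, un]
    constructor
    · rintro ⟨t, ht, hz⟩
      rcases ht with ⟨k, _, rfl⟩ | rfl | ht
      · exact Or.inl (seg_part_subset _ _ _ hz)
      · exact Or.inl (seg_part_subset _ _ _ hz)
      · rw [hmF] at ht
        obtain ⟨t1, t2⟩ := t
        rcases ht with ⟨h1, h2⟩ | ⟨h1, h2⟩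
        · simp only at h1
          subst h1
          exact Or.inl (seg_part_subset _ _ _ hz)
        · simp only at h1
          subst h1
          exact Or.inr ⟨t2, h2, hz⟩
    · rintro (hz | ⟨k, hk, hz⟩)
      · set k := (A.2 i).1 z with hk
        have hzk : z ∈ (sel A B i j (false, k)).1 := by
          change z ∈ part A.1 (A.2 i).1 k
          simp only [part, Finset.mem_filter]
          exact ⟨hz, rfl⟩
        by_cases h1 : k ∈ S
        · exact ⟨(false, k), Or.inl ⟨k, h1, rfl⟩, hzk⟩
        · by_cases h2 : k = e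
          · exact ⟨(false, k), Or.inr (Or.inl (by rw [h2])), hzk⟩
          · refine ⟨(false, k), Or.inr (Or.inr ?_), hzk⟩
            rw [hmF]
            exact Or.inl ⟨rfl, by simp [hR, h1, h2]⟩
      · refine ⟨(true, k), Or.inr (Or.inr ?_), hz⟩
        rw [hmF]
        exact Or.inr ⟨rfl, hk⟩
  rw [e1, e2] at main
  exact main

theorem seg_light {lam β r : ℕ} {u₀ p M : ℝ} (hβ : 1 ≤ β) (hp : 0 ≤ p) {h : ℕ}
    (hl : lev β p h < 4 * (lam : ℝ) ^ 2) (X : Blk V (β ^ 2) r h) {D : ℝ} (hD : |D| ≤ M) :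
    TS x lam β u₀ p M h X D ∅ := by
  cases h with
  | zero => exact ⟨rfl, hD⟩
  | succ h =>
    refine Or.inl ⟨lt_of_le_of_lt ?_ hl, rfl, hD⟩
    unfold lev
    have h1 : (1 : ℝ) ≤ (β : ℝ) ^ 2 := by
      have : (1 : ℝ) ≤ β := by exact_mod_cast hβ
      nlinarith
    have h2 : ((β : ℝ) ^ 2) ^ h ≤ ((β : ℝ) ^ 2) ^ (h + 1) :=
      pow_le_pow_right₀ h1 (Nat.le_succ h)
    exact mul_le_mul_of_nonneg_left h2 hp

theorem seg_thm (hORD : ORDStmt) (hTEX : TEXStmt) : SEGStmt := by
  intro V _ _ x hx lam β r hP u₀ p M hu hp hpu hM M' hM' h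
  have hlam : (1 : ℝ) ≤ lam := by exact_mod_cast hP.lam_pos
  have hβ1 : 1 ≤ β := by
    have := hP.big
    omega
  have hβ : (1 : ℝ) ≤ β := by exact_mod_cast hβ1
  have hu0 : (0 : ℝ) ≤ u₀ := le_trans (by positivity) hu
  have hTEX' := hTEX V x hx lam β r hP u₀ p M hu hp hpu hM
  have hM2 : 2 * (lam : ℝ) ^ 2 ≤ M := by
    refine le_trans ?_ hM
    have h1 : 2 * (lam : ℝ) ≤ (u₀ + 2 * lam) * (β + 1) := by
      nlinarith [mul_nonneg (add_nonneg hu0 (by positivity : (0 : ℝ) ≤ 2 * lam))
        (by linarith : (0 : ℝ) ≤ (β : ℝ))]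
    nlinarith
  -- regularity
  have hRng : ∀ {h : ℕ} (X : Blk V (β ^ 2) r h), Good x lam β u₀ p h X →
      |ws x X.1| ≤ lam * rho lam (lev β p h) := by
    intro h X hX
    cases h with
    | zero =>
      have := hX.2.2
      simpa [lev] using this
    | succ h => exact hX.1.2.2
  have hrho2 : ∀ h, 2 * (lam : ℝ) ^ 2 ≤ lam * rho lam (lev β p h) := by
    intro h
    have h1 : 2 * (lam : ℝ) ≤ rho lam (lev β p h) := by
      unfold rho
      apply Real.le_sqrt_of_sq_le
      have : 0 ≤ lev β p h := by unfold lev; positivity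
      nlinarith
    nlinarith
  have hrhoM : ∀ h, lev β p h < 4 * (lam : ℝ) ^ 2 → lam * rho lam (lev β p h) ≤ M := by
    intro h hl
    refine le_trans ?_ hM
    refine mul_le_mul_of_nonneg_left ?_ (by positivity)
    unfold rho
    have h0 : 0 ≤ lev β p h := by unfold lev; positivity
    rw [Real.sqrt_le_left (by positivity)]
    have h2 : (2 * (lam : ℝ)) * 2 ≤ (u₀ + 2 * lam) * (β + 1) := by
      have := mul_nonneg (add_nonneg hu0 (by positivity : (0 : ℝ) ≤ 2 * lam))
        (by linarith : (0 : ℝ) ≤ (β : ℝ) - 1)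
      nlinarith
    have h3 : (2 * (lam : ℝ) * 2) ^ 2 ≤ ((u₀ + 2 * lam) * (β + 1)) ^ 2 :=
      pow_le_pow_left₀ (by positivity) h2 2
    nlinarith
  have main : ∀ h, SegAt x lam β r u₀ p M M' h := by
    intro h
    induction h with
    | zero =>
      intro A B D T T' hA hT hd hTgt
      obtain ⟨hT0, hDM⟩ := hT
      have hT'0 : T' = ∅ := by
        rcases hTgt with ⟨_, h2⟩ | ⟨_, _, h3⟩
        · exact h2.1
        · exact h3
      have hcA : (A.1.card : ℝ) ≤ M' := by
        have h1 : |(A.1.card : ℝ) - u₀ ^ 2| ≤ lam * u₀ := hA.1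
        have h2 := (abs_le.1 h1).2
        linarith
      have hcA' : A.1.card ≤ M' := by exact_mod_cast hcA
      rw [hT0, hT'0, Finset.union_empty]
      refine rreach_leaf hx _ D M _ hDM _ A.1 rfl (by linarith) ?_
      intro Z hZ
      unfold Fam
      refine Finset.mem_image.2 ⟨(Z, ∅), ?_, Finset.union_empty Z⟩
      rw [Finset.mem_product]
      constructor
      · simp only [pw, hcA', if_true, Finset.mem_powerset]
        exact hZ
      · simp only [pw]
        split_ifs
        · exact Finset.empty_mem_powerset _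
        · exact Finset.mem_singleton_self _
    | succ h ih =>
      intro A B D T T' hA hT hd hTgt
      have hsub : ∀ (X : Blk V (β ^ 2) r h) D T, TS x lam β u₀ p M h X D T → T ⊆ X.1 :=
        fun X D T hh => ((hTEX' h X).1 D T hh).1
      have hunB : ∀ j, un B j ∅ = ∅ := by intro j; simp [un]
      rcases hT with ⟨hl, hT0, hDM⟩ | ⟨hheavy, i, S, e, Te, heS, hgA, hTeq, hTe, hb1, hb2⟩
      · -- light children
        obtain ⟨i, _, hgA⟩ := hA.2
        have hend : |D + ws x A.1| ≤ M ∧ T' = ∅ ∧ ∃ (j : Fin r), ∀ k,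
            Tgt x lam β u₀ p M (sub B j k) (D + ws x A.1) ∅ := by
          rcases hTgt with ⟨hB, hT'⟩ | ⟨hB, hD, hT'⟩
          · rcases hT' with ⟨_, h2, h3⟩ | ⟨h1, _⟩
            · obtain ⟨j, _, hgB⟩ := hB.2
              exact ⟨h3, h2, j, fun k => Or.inl ⟨hgB k, seg_light hβ1 hp hl _ h3⟩⟩
            · exact absurd h1 (not_le.2 hl)
          · refine ⟨hD.trans hM2, hT', i, fun k => Or.inr ⟨?_, hD, rfl⟩⟩
            change part B.1 _ _ = ∅
            rw [hB]; simp [part]
        obtain ⟨hend1, hend2, j, hend3⟩ := hend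
        have hwA : ws x A.1 = ∑ k, ws x (sub A i k).1 := by
          have hdA : ((univ : Finset (Fin (β ^ 2))) : Set (Fin (β ^ 2))).PairwiseDisjoint
              (fun k => (sub A i k).1) := fun k _ l _ hkl => seg_part_disjoint hkl
          rw [← ws_biUnion hdA]
          congr 1
          ext z
          simp only [Finset.mem_biUnion, sub, part, Finset.mem_filter, Finset.mem_univ, true_and,
            exists_eq_right']
        obtain ⟨L, hL1, hL2, hL3⟩ := hORD _ (univ : Finset (Fin (β ^ 2)))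
          (fun k => ws x (sub A i k).1) M D
          (fun k _ => (hRng _ (hgA k)).trans (hrhoM h hl)) hDM (by rw [← hwA]; exact hend1)
        have hpos : 0 < β ^ 2 := by positivity
        have hne : L ≠ [] := by
          rintro rfl
          have : (⟨0, hpos⟩ : Fin (β ^ 2)) ∈ (univ : Finset (Fin (β ^ 2))) := Finset.mem_univ _
          rw [← hL2] at this
          simp at this
        obtain ⟨e, L', rfl⟩ := List.exists_cons_of_ne_nil hne
        have hbe : |D + ws x (sub A i e).1| ≤ M := by
          have h2 := hL3.2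
          cases L' with
          | nil => exact h2
          | cons f L'' => exact h2.1
        have hunA : un A i ∅ = ∅ := by simp [un]
        have := seg_node_core hORD ih hsub (Mb := M)
          (fun X _ D hD => ⟨∅, seg_light hβ1 hp hl X hD⟩)
          (fun X hX => (hRng X hX).trans (hrhoM h hl)) hd i j ∅ e ∅ D (by simp) hgA
          (by rw [hunA, ws_empty, add_zero]; exact seg_light hβ1 hp hl _ hDM)
          (by rw [hunA, ws_empty, add_zero]; exact hbe)
          ∅ e ∅ (by simp) (fun k hk => absurd hk (by simp))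
          (by rw [hunB, ws_empty, add_zero]; exact hend1)
          (by rw [hunB, ws_empty, add_zero]; exact hend3 e)
        rw [hunA, hunB] at this
        rw [hT0, hend2]
        simpa using this
      · -- heavy children
        rw [hTeq]
        have hex : ∀ (X : Blk V (β ^ 2) r h), Good x lam β u₀ p h X → ∀ D : ℝ,
            |D| ≤ lam * rho lam (lev β p h) → ∃ T, TS x lam β u₀ p M h X D T :=
          fun X hX => (hTEX' h X).2.2 hX
        rcases hTgt with ⟨hB, hT'⟩ | ⟨hB, hD, hT'⟩
        · rcases hT' with ⟨h1, _⟩ | ⟨_, j, S', e', Te', heS', hgB, hTeq', hTe', hb1', hb2'⟩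
          · exact absurd hheavy (not_le.2 h1)
          · rw [hTeq']
            exact seg_node_core hORD ih hsub hex (fun X hX => hRng X hX) hd i j S e Te D heS hgA
              hTe hb2 S' e' Te' heS' (fun k _ => hgB k) hb1' (Or.inl ⟨hgB e', hTe'⟩)
        · have := seg_node_core hORD ih hsub hex (fun X hX => hRng X hX) hd i i S e Te D heS hgA
            hTe hb2 ∅ e ∅ (by simp) (fun k hk => absurd hk (by simp))
            (by rw [hunB, ws_empty, add_zero]; exact hD.trans (hrho2 h))
            (Or.inr ⟨by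
              change part B.1 _ _ = ∅
              rw [hB]; simp [part], by rw [hunB, ws_empty, add_zero]; exact hD, rfl⟩)
          rw [hunB] at this
          rw [hT']
          simpa using this
  intro A B D T T' h1 h2 h3 h4
  exact main h A B D T T' h1 h2 h3 h4

end seg

end Pool.Agent.H5.FR2
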