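import Pool.Agent.H5.FR2.Main
import Pool.Agent.H51.FR.CNT
import Pool.Agent.H22.FR2.CIQ
import Pool.Agent.H22.FR2.HNF
import Pool.Agent.H24.FR2.ORD
import Pool.Agent.H24.FR2.TEX
import Pool.Agent.H27.FR2.CHN
import Pool.Agent.H29.FR2.WCK
import Pool.Agent.H31.FR2.BAS
import Pool.Agent.H31.FR2.FAM
import Pool.Agent.H31.FR2.PAR
import Pool.Agent.H33.FR2.BRN
import Pool.Agent.H33.FR2.CPO
import Pool.Agent.H33.FR2.REC
import Pool.Agent.H34.FR2.CAP
import Pool.Agent.H34.FR2.HAL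
import Pool.Agent.H45.FR2.KRA
import Pool.Agent.H45.FR2.KRN
import Pool.Agent.H45.FR2.STP
import Pool.Agent.H47.FR2.AVG
import Pool.Agent.H47.FR2.MLQ
import Pool.Agent.H5.FR2.SEG
import Pool.Agent.H62.FR2.RKT
import Pool.Agent.H65.FR2.HNA
import Pool.Agent.H71.FR2.LOR
import Pool.Agent.H71.FR2.UPR
import Pool.Agent.H78.FR2.BLK
import Pool.Agent.H78.FR2.COE
import Pool.Agent.H78.FR2.FIN
import Pool.Agent.H78.FR2.SZE
import Pool.Agent.H78.FR2.TTP
import Pool.Agent.H83.FR2.CHB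
import Pool.Agent.H83.FR2.OWN
import Pool.Agent.H83.FR2.ROO
import Pool.Agent.H84.FR2.PRT
import Pool.Agent.H84.FR2.TTN
import Pool.Agent.H87.FR2.GEN
import Pool.Agent.H87.FR2.SCL
import Pool.Agent.H95.FR2.RNK

/-!
# Project URB: the main theorem
-/

set_option autoImplicit false

namespace Pool.Agent.H5.FR2

open Finset Pool.Agent.H80

theorem krn_stp_ttp : TTPStmt := ttp_thm (stp_thm (avg_thm wck_thm)) krn_thm

theorem rnk_all : RNKStmt :=
  rnk_thm (scl_thm (cap_thm (cpo_thm hal_thm)) prt_thm) rkt_thm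
    (fin_thm krn_stp_ttp (stp_thm (avg_thm wck_thm)) krn_thm) ttn_thm kra_thm coe_thm

theorem fam_all : FAMStmt :=
  fam_thm (roo_thm (rec_thm (own_thm brn_thm chb_thm))) (seg_thm ord_thm tex_thm) tex_thm par_thm
    Pool.Agent.H5.FR.cnt_thm

theorem main_thm : ∃ C : ℕ, ∀ (n d : ℕ) (x y : ℕ → Fin d → ℕ)
      (A : ∀ k i, Fin n → Matrix (Fin (x k i)) (Fin (y k i)) ℂ),
      ∃ (f : MvPolynomial (Fin d × Fin n) ℂ) (D : Circuit ℂ (Fin d × Fin n)),
        D.WeaklySkew ∧ SMC D ∧ D.Computes f ∧ D.size ≤ (n + d + 2) ^ C ∧ SetMul f ∧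
        ∀ k g, (app (A k) g).rank ≤ 3 * (app (A k) f).rank :=
  main_of fam_all (hnf_thm (hna_thm bas_thm)) (blk_thm (sze_thm chn_thm) rnk_all coe_thm) gen_thm
    kra_thm lor_thm upr_thm mlq_thm ciq_thm

end Pool.Agent.H5.FR2
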