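import Pool.Agent.H5.FR2.Stmts

/-!
# Project URB: assembly of the main theorem from its parts
-/

set_option autoImplicit false

namespace Pool.Agent.H5.FR2

open Finset Pool.Agent.H5.FR Pool.Agent.H80

theorem main_of (hFAM : FAMStmt) (hHNF : HNFStmt) (hBLK : BLKStmt) (hGEN : GENStmt)
    (hKRA : KRAStmt) (hLOR : LORStmt) (hUPR : UPRStmt) (hMLQ : MLQStmt) (hCIQ : CIQStmt) :
    ∃ C : ℕ, ∀ (n d : ℕ) (x y : ℕ → Fin d → ℕ)
      (A : ∀ k i, Fin n → Matrix (Fin (x k i)) (Fin (y k i)) ℂ),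
      ∃ (f : MvPolynomial (Fin d × Fin n) ℂ) (D : Circuit ℂ (Fin d × Fin n)),
        D.WeaklySkew ∧ SMC D ∧ D.Computes f ∧ D.size ≤ (n + d + 2) ^ C ∧ SetMul f ∧
        ∀ k g, (app (A k) g).rank ≤ 3 * (app (A k) f).rank := by
  obtain ⟨C, hC⟩ := hFAM
  refine ⟨9 * C + 19, ?_⟩
  intro n d x y A
  obtain ⟨F, hF, hR⟩ := hC d
  set W : ℕ := 32 * d * (n + 1) ^ (4 * C) with hW
  have h1 : ∀ k i, _ := fun k i => hHNF n (Fin (x k i)) (Fin (y k i)) (A k i)
  choose P Q r c hP hQ hz hs hss using h1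
  have h2 := hGEN d n W F (ℕ × (Fin d → ℕ))
    (fun k i => {p // r k.1 i p = k.2 i}) (fun k i => {q // c k.1 i q = k.2 i})
    (fun k => blk (fun i a => P k.1 i * A k.1 i a * Q k.1 i) (r k.1) (c k.1) k.2)
    (fun k => min (∏ i, Fintype.card {p // r k.1 i p = k.2 i})
      (∏ i, Fintype.card {q // c k.1 i q = k.2 i}))
    (fun k => hBLK d n C W F hR (by omega) _ _ _ (fun i => hss k.1 i (k.2 i)))
  obtain ⟨w, hw⟩ := h2
  obtain ⟨D, c1, c2, c3, c4⟩ := hCIQ d n W F w
  refine ⟨QQ F w d univ 0, D, c1, c2, c3, ?_, hMLQ d n W F w, ?_⟩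
  · have hm2 : 2 ≤ n + d + 2 := by omega
    set m := n + d + 2 with hm
    have e1 : F.card + 1 ≤ 2 * m ^ C := by
      have : (d + 2) ^ C ≤ m ^ C := Nat.pow_le_pow_left (by omega) C
      have : 1 ≤ m ^ C := Nat.one_le_pow _ _ (by omega)
      omega
    have e2 : W + 1 ≤ 33 * m ^ (4 * C + 1) := by
      have a1 : d * (n + 1) ^ (4 * C) ≤ m * m ^ (4 * C) := by
        gcongr <;> omega
      have a2 : m * m ^ (4 * C) = m ^ (4 * C + 1) := by ring
      have a3 : 1 ≤ m ^ (4 * C + 1) := Nat.one_le_pow _ _ (by omega)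
      have a4 : W = 32 * (d * (n + 1) ^ (4 * C)) := by rw [hW]; ring
      omega
    have e3 : (17424 : ℕ) ≤ m ^ 15 := by
      have : 2 ^ 15 ≤ m ^ 15 := Nat.pow_le_pow_left hm2 15
      omega
    calc D.size ≤ 8 * (F.card + 1) * (d + 1) * (n + 1) * (W + 1) ^ 2 := c4
      _ ≤ 8 * (2 * m ^ C) * m * m * (33 * m ^ (4 * C + 1)) ^ 2 := by
        gcongr <;> omega
      _ = 17424 * m ^ (9 * C + 4) := by ring
      _ ≤ m ^ 15 * m ^ (9 * C + 4) := by gcongr
      _ = m ^ (9 * C + 19) := by ring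
  · intro k g
    set S : Finset (Fin d → ℕ) :=
      (univ : Finset (∀ i, Fin (x k i))).image (fun p i => r k i (p i)) ∪
      (univ : Finset (∀ i, Fin (y k i))).image (fun q i => c k i (q i)) with hS
    have u1 := hUPR d n (fun i => Fin (x k i)) (fun i => Fin (y k i))
      (fun i a => P k i * A k i a * Q k i) (r k) (c k) (fun i a p q h => hz k i a p q h)
      (fun i I J h => hs k i I J h) g S
      (fun p => by
        rw [hS, mem_union]; left
        exact mem_image.2 ⟨p, mem_univ _, rfl⟩)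
      (fun q => by
        rw [hS, mem_union]; right
        exact mem_image.2 ⟨q, mem_univ _, rfl⟩)
    have u2 := hLOR d n (fun i => Fin (x k i)) (fun i => Fin (y k i))
      (fun i a => P k i * A k i a * Q k i) (r k) (c k) (fun i a p q h => hz k i a p q h)
      (QQ F w d univ 0) S
    rw [hKRA d n _ _ (A k) (P k) (Q k) (hP k) (hQ k)] at u1 u2
    calc (app (A k) g).rank ≤ _ := u1
      _ ≤ ∑ J ∈ S, 3 * (app (blk (fun i a => P k i * A k i a * Q k i) (r k) (c k) J)
          (QQ F w d univ 0)).rank := sum_le_sum (fun J _ => hw (k, J))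
      _ = 3 * ∑ J ∈ S, (app (blk (fun i a => P k i * A k i a * Q k i) (r k) (c k) J)
          (QQ F w d univ 0)).rank := by rw [mul_sum]
      _ ≤ 3 * (app (A k) (QQ F w d univ 0)).rank := by gcongr

end Pool.Agent.H5.FR2
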