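import Pool.Agent.H80.Circuit

/-!
# Rank methods and set-multilinear circuits (MP_f18ce0_lc)

Arithmetic circuits, weakly skew circuits and their size are defined, following the problem file,
in `Pool.Agent.H80.Circuit`.  The variables are `X (i, a)` with `i < d` and `a < n`.
-/

set_option autoImplicit false

namespace Pool.Agent.H5.RankMethods

open Pool.Agent.H80

/-- A rank method for set-multilinear polynomials of degree `d` in `d` sets of `n` variables: for
each variable `(i, a)` a complex matrix with `x i` rows and `y i` columns. -/
structure RankMethod (n d : ℕ) where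
  /-- the numbers of rows -/
  x : Fin d → ℕ
  /-- the numbers of columns -/
  y : Fin d → ℕ
  /-- the matrices -/
  A : ∀ i, Fin n → Matrix (Fin (x i)) (Fin (y i)) ℂ

/-- The matrix which the rank method attaches to the polynomial `g`: the sum over all functions
`a : Fin d → Fin n` of the coefficient in `g` of the monomial `∏ i, X (i, a i)` times the
Kronecker product of the `d` matrices `A i (a i)`. -/
noncomputable def RankMethod.matrix {n d : ℕ} (Θ : RankMethod n d)
    (g : MvPolynomial (Fin d × Fin n) ℂ) :
    Matrix (∀ i, Fin (Θ.x i)) (∀ i, Fin (Θ.y i)) ℂ :=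
  fun p q => ∑ a : Fin d → Fin n,
    g.coeff (∑ i, Finsupp.single (i, a i) 1) * ∏ i, Θ.A i (a i) (p i) (q i)

/-- Every monomial of `f` is a product `∏ i, X (i, a i)` with one variable from each of the `d`
sets of variables. -/
def SetMultilinear {n d : ℕ} (f : MvPolynomial (Fin d × Fin n) ℂ) : Prop :=
  ∀ m ∈ f.support, ∃ a : Fin d → Fin n, m = ∑ i, Finsupp.single (i, a i) 1

/-- The circuit is set-multilinear: the nodes `v` carry sets `S v` of indices less than `d`; an
input labelled by the variable `(i, a)` has the set `{i}`, one labelled by a constant other than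
`0` the empty set, the two predecessors of a sum gate have the same set as the gate, and the set
of a product gate is the disjoint union of the sets of its predecessors. -/
def SetMultilinearCircuit {n d : ℕ} (D : Circuit ℂ (Fin d × Fin n)) : Prop :=
  ∃ S : D.V → Finset (Fin d), (∀ v i a, D.gate v = Gate.var (i, a) → S v = {i}) ∧
    (∀ v c, D.gate v = Gate.const c → c ≠ 0 → S v = ∅) ∧
    (∀ v a b, D.gate v = Gate.add a b → S a = S v ∧ S b = S v) ∧
    (∀ v a b, D.gate v = Gate.mul a b → Disjoint (S a) (S b) ∧ S v = S a ∪ S b)

end Pool.Agent.H5.RankMethods
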