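import Pool.Agent.H5.FR2.Defs

/-!
# Project URB (MP_f18ce0_lc): statements of the modules
-/

set_option autoImplicit false

namespace Pool.Agent.H5.FR2

open Finset Pool.Agent.H5.FR Pool.Agent.H80
open scoped ComplexOrder

/-! ### Part 1: chains -/

/-- all prefix sums of the list, started at `D`, are bounded by `M` -/
def PB {ι : Type} (w : ι → ℝ) (M : ℝ) : ℝ → List ι → Prop
  | D, [] => |D| ≤ M
  | D, f :: L => |D| ≤ M ∧ PB w M (D + w f) L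

/-- BRN: Bernstein bound for the random function `g`, counting form -/
def BRNStmt : Prop := ∀ (V : Type) [Fintype V] [DecidableEq V] (b : ℕ), 2 ≤ b →
  ∀ (c : Finset V) (a : V → ℝ), (∀ v, |a v| ≤ 1) → ∀ (k : Fin b) (θ τ : ℝ), 0 ≤ θ → θ ≤ 1 →
    ((univ.filter (fun g : V → Fin b =>
      τ ≤ ∑ v ∈ c, a v * ((if g v = k then 1 else 0) - 1 / (b : ℝ)))).card : ℝ) ≤
      Real.exp (θ ^ 2 * (∑ v ∈ c, a v ^ 2) / b - θ * τ) * (Fintype.card (V → Fin b) : ℝ)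

/-- CHB: Chebyshev bound for the sum of the squares of the sums over the parts -/
def CHBStmt : Prop := ∀ (V : Type) [Fintype V] [DecidableEq V] (b : ℕ), 6 ≤ b →
  ∀ (x : V → ℝ) (c : Finset V),
    ((univ.filter (fun g : V → Fin b =>
      ∑ k, (ws x (part c g k)) ^ 2 < wq x c / 2)).card : ℝ) ≤
      18 / (b : ℝ) * (Fintype.card (V → Fin b) : ℝ)

/-- OWN: a random distribution of a regular block is fine with probability at least `3/4` -/
def OWNStmt : Prop := ∀ (V : Type) [Fintype V] [DecidableEq V] (x : V → ℝ),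
  (∀ v, |x v| ≤ 1) → ∀ (lam β r : ℕ), PH lam β r → ∀ (w P : ℝ), 8 * (lam : ℝ) ≤ w → 0 ≤ P →
  ∀ (c : Finset V), Rng x lam (w * β) (P * (β : ℝ) ^ 2) c →
    (Nat.card {g : V → Fin (β ^ 2) //
      ¬ ((4 * (lam : ℝ) ^ 2 ≤ P → Mass x c g (lam * rho lam (P * (β : ℝ) ^ 2))) ∧
      ∀ k, Rng x lam w P (part c g k))} : ℝ) ≤ 1 / 4 * (Fintype.card (V → Fin (β ^ 2)) : ℝ)

/-- REC: a regular block is good with probability at least `1 - 1/(4 b)` -/
def RECStmt : Prop := ∀ (V : Type) [Fintype V] [DecidableEq V] (x : V → ℝ),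
  (∀ v, |x v| ≤ 1) → ∀ (lam β r : ℕ), PH lam β r → ∀ (u₀ p : ℝ), 8 * (lam : ℝ) ≤ u₀ → 0 ≤ p →
  ∀ (h : ℕ) (c : Finset V), Rng x lam (u₀ * (β : ℝ) ^ h) (lev β p h) c →
    (Nat.card {ω : Om V (β ^ 2) r h // ¬ Good x lam β u₀ p h (c, ω)} : ℝ) ≤
      1 / (4 * (β : ℝ) ^ 2) * (Nat.card (Om V (β ^ 2) r h) : ℝ)

/-- ROO: `J` random structures serve less than `(4 b) ^ J` weight functions -/
def ROOStmt : Prop := ∀ (d : ℕ), 1 ≤ d → ∀ (lam β r : ℕ), PH lam β r → ∀ (u₀ : ℝ),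
  8 * (lam : ℝ) ≤ u₀ → ∀ (h : ℕ), (u₀ * (β : ℝ) ^ h) ^ 2 = d →
    ∀ (J : ℕ) (𝒳 : Finset (Fin d → ℝ)), (∀ x ∈ 𝒳, (∀ v, |x v| ≤ 1) ∧ |∑ v, x v| ≤ 2) →
      𝒳.card < (4 * β ^ 2) ^ J →
      ∃ ω : Fin J → Om (Fin d) (β ^ 2) r h, ∀ x ∈ 𝒳,
        ∃ j, Good x lam β u₀ (wq x univ / ((β : ℝ) ^ 2) ^ h) h (univ, ω j)

/-- ORD: ordering of bounded weights with bounded prefix sums -/
def ORDStmt : Prop := ∀ (ι : Type) [DecidableEq ι] (F : Finset ι) (w : ι → ℝ) (M D : ℝ),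
  (∀ f ∈ F, |w f| ≤ M) → |D| ≤ M → |D + ∑ f ∈ F, w f| ≤ M →
    ∃ L : List ι, L.Nodup ∧ L.toFinset = F ∧ PB w M D L

/-- TEX: existence and simple properties of admissible beginnings -/
def TEXStmt : Prop := ∀ (V : Type) [Fintype V] [DecidableEq V] (x : V → ℝ),
  (∀ v, |x v| ≤ 1) → ∀ (lam β r : ℕ), PH lam β r → ∀ (u₀ p M : ℝ), 8 * (lam : ℝ) ≤ u₀ →
  0 ≤ p → p ≤ u₀ ^ 2 → lam * ((u₀ + 2 * lam) * (β + 1)) ≤ M →
  ∀ (h : ℕ) (A : Blk V (β ^ 2) r h),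
    (∀ D T, TS x lam β u₀ p M h A D T → T ⊆ A.1 ∧ |D + ws x T| ≤ M) ∧
    (Good x lam β u₀ p h A → TS x lam β u₀ p M h A 0 ∅) ∧
    (Good x lam β u₀ p h A → ∀ D : ℝ, |D| ≤ lam * rho lam (lev β p h) →
      ∃ T, TS x lam β u₀ p M h A D T)

/-- SEG: the chain for two consecutive blocks -/
def SEGStmt : Prop := ∀ (V : Type) [Fintype V] [DecidableEq V] (x : V → ℝ),
  (∀ v, |x v| ≤ 1) → ∀ (lam β r : ℕ), PH lam β r → ∀ (u₀ p M : ℝ), 8 * (lam : ℝ) ≤ u₀ →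
  0 ≤ p → p ≤ u₀ ^ 2 → lam * ((u₀ + 2 * lam) * (β + 1)) ≤ M →
  ∀ (M' : ℕ), u₀ ^ 2 + lam * u₀ ≤ M' → ∀ (h : ℕ) (A B : Blk V (β ^ 2) r h) (D : ℝ)
    (T T' : Finset V), Good x lam β u₀ p h A → TS x lam β u₀ p M h A D T → Disjoint A.1 B.1 →
    ((Good x lam β u₀ p h B ∧ TS x lam β u₀ p M h B (D + ws x A.1) T') ∨
      (B.1 = ∅ ∧ |D + ws x A.1| ≤ 2 * (lam : ℝ) ^ 2 ∧ T' = ∅)) →
    RReach x D (M + M') (Fam M' h A B) T (A.1 ∪ T')

/-- PAR: parameters exist -/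
def PARStmt : Prop := ∃ lam β r : ℕ, PH lam β r

/-- FAM: chains with bounded partial sums in a family of polynomial size -/
def FAMStmt : Prop := ∃ C : ℕ, ∀ d : ℕ, ∃ F : Finset (Finset (Fin d)),
  F.card ≤ (d + 2) ^ C ∧ ∀ x : Fin d → ℝ, (∀ i, |x i| ≤ 1) → |∑ i, x i| ≤ 1 →
    RReach x 0 C F ∅ univ

/-! ### Part 2: tuples of matrices -/

/-- BAS: a basis adapted to a subspace -/
def BASStmt : Prop := ∀ (X : Type) [Fintype X] [DecidableEq X] (U : Submodule ℂ (X → ℂ)),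
  ∃ (P : Matrix X X ℂ) (X₀ : Finset X), IsUnit P ∧ X₀.card = Module.finrank ℂ U ∧
    ∀ v : X → ℂ, P.mulVec v ∈ U ↔ ∀ i, i ∉ X₀ → v i = 0

/-- HNA: the first step of the Harder-Narasimhan filtration of a tuple of matrices -/
def HNAStmt : Prop := ∀ (n : ℕ) (X Y : Type) [Fintype X] [DecidableEq X] [Fintype Y]
  [DecidableEq Y] [Nonempty Y] (A : Fin n → Matrix X Y ℂ),
  ∃ (P : Matrix X X ℂ) (Q : Matrix Y Y ℂ) (X₀ : Finset X) (Y₀ : Finset Y), IsUnit P ∧ IsUnit Q ∧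
    Y₀.Nonempty ∧ (∀ a i j, i ∉ X₀ → j ∈ Y₀ → (P * A a * Q) i j = 0) ∧
    SS (fun a => (P * A a * Q).submatrix (Subtype.val : {i // i ∈ X₀} → X)
      (Subtype.val : {j // j ∈ Y₀} → Y)) ∧
    ∀ U : Submodule ℂ ({j // j ∉ Y₀} → ℂ), X₀.card * Module.finrank ℂ U ≤
      Y₀.card * Module.finrank ℂ (img (fun a => (P * A a * Q).submatrix
        (Subtype.val : {i // i ∉ X₀} → X) (Subtype.val : {j // j ∉ Y₀} → Y)) U)

/-- HNF: the Harder-Narasimhan filtration of a tuple of matrices: block triangular form with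
semistable diagonal blocks and increasing slopes (`r i`, `c j` are the numbers of the blocks) -/
def HNFStmt : Prop := ∀ (n : ℕ) (X Y : Type) [Fintype X] [DecidableEq X] [Fintype Y]
  [DecidableEq Y] (A : Fin n → Matrix X Y ℂ),
  ∃ (P : Matrix X X ℂ) (Q : Matrix Y Y ℂ) (r : X → ℕ) (c : Y → ℕ), IsUnit P ∧ IsUnit Q ∧
    (∀ a i j, c j < r i → (P * A a * Q) i j = 0) ∧
    (∀ I J, I ≤ J → Fintype.card {i // r i = I} * Fintype.card {j // c j = J} ≤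
      Fintype.card {i // r i = J} * Fintype.card {j // c j = I}) ∧
    ∀ J, SS (fun a => (P * A a * Q).submatrix (Subtype.val : {i // r i = J} → X)
      (Subtype.val : {j // c j = J} → Y))

/-- HAL: integral fractional perfect matchings from the Hall condition -/
def HALStmt : Prop := ∀ (X Y : Type) [Fintype X] [DecidableEq X] [Fintype Y] [DecidableEq Y]
  (G : X → Y → Prop), (∀ J : Finset Y, Fintype.card X * J.card ≤
      Fintype.card Y * Nat.card {i // ∃ j ∈ J, G i j}) →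
    ∃ m : X → Y → ℕ, (∀ i, ∑ j, m i j = Fintype.card Y) ∧ (∀ j, ∑ i, m i j = Fintype.card X) ∧
      ∀ i j, m i j ≠ 0 → G i j

/-- CPO: supports of semistable tuples in all pairs of orthonormal bases -/
def CPOStmt : Prop := ∀ (n : ℕ) (X Y : Type) [Fintype X] [DecidableEq X] [Fintype Y]
  [DecidableEq Y] (B : Fin n → Matrix X Y ℂ), SS B → ∀ (U : Matrix X X ℂ) (V : Matrix Y Y ℂ),
  U ∈ Matrix.unitaryGroup X ℂ → V ∈ Matrix.unitaryGroup Y ℂ →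
    ∃ m : X → Y → ℕ, (∀ i, ∑ j, m i j = Fintype.card Y) ∧ (∀ j, ∑ i, m i j = Fintype.card X) ∧
      ∀ i j, m i j ≠ 0 → ∃ a, (U.conjTranspose * B a * V) i j ≠ 0

/-- CAP: the capacity of a semistable tuple is positive -/
def CAPStmt : Prop := ∀ (n : ℕ) (X Y : Type) [Fintype X] [DecidableEq X] [Nonempty X] [Fintype Y]
  [DecidableEq Y] [Nonempty Y] (B : Fin n → Matrix X Y ℂ), SS B →
  ∃ c : ℝ, 0 < c ∧ ∀ (P : Matrix X X ℂ) (Q : Matrix Y Y ℂ),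
    c * (‖P.det‖ ^ 2) ^ (Fintype.card Y) * (‖Q.det‖ ^ 2) ^ (Fintype.card X) ≤
      (tr1 (KK (fun a => P * B a * Q))) ^ (Fintype.card X * Fintype.card Y)

/-- PRT: the perturbation which decreases the capacity functional -/
def PRTStmt : Prop := ∀ (X : Type) [Fintype X] [DecidableEq X] [Nonempty X] (R : Matrix X X ℂ),
  R.PosSemidef → R.trace = 1 → ∃ G : Matrix X X ℂ, IsUnit G ∧
    tr1 (G * R * G.conjTranspose) =
      1 - ((Fintype.card X : ℝ) * tr2 R - 1) / (2 * Fintype.card X) ∧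
    Real.exp (-((Fintype.card X : ℝ) * tr2 R - 1) / (4 * Fintype.card X)) ≤ ‖G.det‖ ^ 2

/-- SCL: approximate operator scaling of semistable tuples -/
def SCLStmt : Prop := ∀ (n : ℕ) (X Y : Type) [Fintype X] [DecidableEq X] [Nonempty X] [Fintype Y]
  [DecidableEq Y] [Nonempty Y] (B : Fin n → Matrix X Y ℂ), SS B → ∀ ε : ℝ, 0 < ε →
  ∃ (P : Matrix X X ℂ) (Q : Matrix Y Y ℂ), IsUnit P ∧ IsUnit Q ∧
    tr1 (KK (fun a => P * B a * Q)) = 1 ∧
    (Fintype.card X : ℝ) * tr2 (KK (fun a => P * B a * Q)) ≤ 1 + ε ∧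
    (Fintype.card Y : ℝ) * tr2 (LL (fun a => P * B a * Q)) ≤ 1 + ε

/-! ### Part 3: random tensor trains -/

/-- RKT: the second moment lower bound for the rank -/
def RKTStmt : Prop := ∀ (X Y : Type) [Fintype X] [DecidableEq X] [Fintype Y] [DecidableEq Y]
  (M : Matrix X Y ℂ), tr1 (M * M.conjTranspose) ^ 2 ≤ (M.rank : ℝ) * tr2 (M * M.conjTranspose)

/-- WCK: moments of the eight point distribution -/
def WCKStmt : Prop := ∀ (I : Type) [Fintype I] [DecidableEq I],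
  (∀ a b : I, ∑ G : I → Fin 8, zz (G a) * star (zz (G b)) =
    (8 : ℂ) ^ (Fintype.card I) * (if a = b then 1 else 0)) ∧
  (∀ a b c e : I, ∑ G : I → Fin 8, zz (G a) * star (zz (G b)) * zz (G c) * star (zz (G e)) =
    (8 : ℂ) ^ (Fintype.card I) *
      ((if a = b ∧ c = e then 1 else 0) + (if a = e ∧ c = b then 1 else 0)))

/-- AVG: averages over the random combinations of a family of matrices -/
def AVGStmt : Prop := ∀ (X Y C O : Type) [Fintype X] [DecidableEq X] [Fintype Y] [DecidableEq Y]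
  [Fintype C] [DecidableEq C] [Fintype O] [DecidableEq O] (B : C → Matrix X Y ℂ),
  (∑ G : C → O → Fin 8, tr1 (KK (fun v => mix B (fun c => zz (G c v)))) =
    (Fintype.card (C → O → Fin 8) : ℝ) * (Fintype.card O * tr1 (KK B))) ∧
  (∑ G : C → O → Fin 8, tr2 (KK (fun v => mix B (fun c => zz (G c v)))) =
    (Fintype.card (C → O → Fin 8) : ℝ) *
      ((Fintype.card O : ℝ) ^ 2 * tr2 (KK B) + Fintype.card O * tr2 (LL B))) ∧
  (∑ G : C → O → Fin 8, tr2 (LL (fun v => mix B (fun c => zz (G c v)))) =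
    (Fintype.card (C → O → Fin 8) : ℝ) *
      ((Fintype.card O : ℝ) ^ 2 * tr2 (LL B) + Fintype.card O * tr2 (KK B)))

/-- STP: a good choice of the coefficients exists -/
def STPStmt : Prop := ∀ (X Y C O : Type) [Fintype X] [DecidableEq X] [Fintype Y] [DecidableEq Y]
  [Fintype C] [DecidableEq C] [Fintype O] [DecidableEq O] (B : C → Matrix X Y ℂ) (a b c : ℝ),
  0 ≤ c → ∃ g : C → O → ℂ,
    a * tr2 (KK (fun v => mix B (fun c => g c v))) +
      b * tr2 (LL (fun v => mix B (fun c => g c v))) -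
      c * tr1 (KK (fun v => mix B (fun c => g c v))) ^ 2 ≤
    a * ((Fintype.card O : ℝ) ^ 2 * tr2 (KK B) + Fintype.card O * tr2 (LL B)) +
      b * ((Fintype.card O : ℝ) ^ 2 * tr2 (LL B) + Fintype.card O * tr2 (KK B)) -
      c * (Fintype.card O * tr1 (KK B)) ^ 2

/-- KRN: moments of Kronecker products -/
def KRNStmt : Prop := ∀ (d : ℕ) (X Y : Fin (d + 1) → Type) [∀ i, Fintype (X i)]
  [∀ i, DecidableEq (X i)] [∀ i, Fintype (Y i)] [∀ i, DecidableEq (Y i)] (S N : Type) [Fintype S]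
  [Fintype N] (M : S → Matrix (∀ i : Fin d, X i.castSucc) (∀ i : Fin d, Y i.castSucc) ℂ)
  (A : N → Matrix (X (Fin.last d)) (Y (Fin.last d)) ℂ)
  (B : S × N → Matrix (∀ i, X i) (∀ i, Y i) ℂ),
  (∀ c p q, B c p q = M c.1 (fun i => p i.castSucc) (fun i => q i.castSucc) *
    A c.2 (p (Fin.last d)) (q (Fin.last d))) →
  tr1 (KK B) = tr1 (KK M) * tr1 (KK A) ∧ tr2 (KK B) = tr2 (KK M) * tr2 (KK A) ∧
    tr2 (LL B) = tr2 (LL M) * tr2 (LL A)

/-- TTP: good cores for a tensor train -/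
def TTPStmt : Prop := ∀ (n W d : ℕ) (X Y : Fin d → Type) [∀ i, Fintype (X i)]
  [∀ i, DecidableEq (X i)] [∀ i, Fintype (Y i)] [∀ i, DecidableEq (Y i)]
  (A : ∀ i, Fin n → Matrix (X i) (Y i) ℂ), (∀ i, tr1 (KK (A i)) = 1) → ∀ (a b c : ℝ),
  0 ≤ a → 0 ≤ b → 0 ≤ c → ∃ g : Fin d → Fin (W + 1) → Fin n → Fin (W + 1) → ℂ,
    a * tr2 (KK (tt d X Y A g)) + b * tr2 (LL (tt d X Y A g)) - c * tr1 (KK (tt d X Y A g)) ^ 2 ≤
    a * (pq (W + 1) d (fun i => tr2 (KK (A i))) (fun i => tr2 (LL (A i)))).1 +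
      b * (pq (W + 1) d (fun i => tr2 (KK (A i))) (fun i => tr2 (LL (A i)))).2 -
      c * (((W : ℝ) + 1) ^ d) ^ 2

/-- FIN: good cores for a tensor train with one output -/
def FINStmt : Prop := ∀ (n W d : ℕ) (X Y : Fin (d + 1) → Type) [∀ i, Fintype (X i)]
  [∀ i, DecidableEq (X i)] [∀ i, Fintype (Y i)] [∀ i, DecidableEq (Y i)]
  (A : ∀ i, Fin n → Matrix (X i) (Y i) ℂ), (∀ i, tr1 (KK (A i)) = 1) → ∀ (c : ℝ), 0 ≤ c →
  tr2 (KK (A (Fin.last d))) *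
      (pq (W + 1) d (fun i => tr2 (KK (A i.castSucc))) (fun i => tr2 (LL (A i.castSucc)))).1 +
    tr2 (LL (A (Fin.last d))) *
      (pq (W + 1) d (fun i => tr2 (KK (A i.castSucc))) (fun i => tr2 (LL (A i.castSucc)))).2 <
    c * (((W : ℝ) + 1) ^ d) ^ 2 →
  ∃ g : Fin (d + 1) → Fin (W + 1) → Fin n → Fin (W + 1) → ℂ,
    tr2 (tt (d + 1) X Y A g 0 * (tt (d + 1) X Y A g 0).conjTranspose) <
      c * tr1 (tt (d + 1) X Y A g 0 * (tt (d + 1) X Y A g 0).conjTranspose) ^ 2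

/-- the sizes of the factors with indices from `s` to `t - 1` satisfy the inequality which is
needed for the tensor train -/
def Bal {d : ℕ} (E : ℝ) (x y : Fin d → ℝ) : Prop :=
  ∏ i, y i ≤ ∏ i, x i ∧ ∀ s t : ℕ, s ≤ t → t ≤ d →
    ∏ i ∈ univ.filter (fun i : Fin d => s ≤ (i : ℕ) ∧ (i : ℕ) < t), y i ≤
      E * ∏ i ∈ univ.filter (fun i : Fin d => s ≤ (i : ℕ) ∧ (i : ℕ) < t), x i

/-- TTN: the numerical inequality -/
def TTNStmt : Prop := ∀ (d : ℕ) (W E : ℝ) (x y ξ η : Fin (d + 1) → ℝ), (∀ i, 0 < x i) →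
  (∀ i, 0 < y i) → (∀ i, 0 ≤ ξ i) → (∀ i, 0 ≤ η i) →
  (∀ i, x i * ξ i ≤ 1 + 1 / (8 * (d + 1))) → (∀ i, y i * η i ≤ 1 + 1 / (8 * (d + 1))) →
  1 ≤ E → 32 * (d + 1) * E ≤ W → Bal E x y →
  (ξ (Fin.last d) * (pq W d (fun i => ξ i.castSucc) (fun i => η i.castSucc)).1 +
    η (Fin.last d) * (pq W d (fun i => ξ i.castSucc) (fun i => η i.castSucc)).2) * ∏ i, y i <
    3 * (W ^ d) ^ 2

/-- RNK: tensor trains of semistable tuples of rank at least a third of the maximum -/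
def RNKStmt : Prop := ∀ (n W d : ℕ) (X Y : Fin d → Type) [∀ i, Fintype (X i)]
  [∀ i, DecidableEq (X i)] [∀ i, Nonempty (X i)] [∀ i, Fintype (Y i)] [∀ i, DecidableEq (Y i)]
  [∀ i, Nonempty (Y i)] (B : ∀ i, Fin n → Matrix (X i) (Y i) ℂ), (∀ i, SS (B i)) → ∀ E : ℝ,
  1 ≤ E → 32 * d * E ≤ W + 1 →
  (Bal E (fun i => (Fintype.card (X i) : ℝ)) (fun i => (Fintype.card (Y i) : ℝ)) ∨
    Bal E (fun i => (Fintype.card (Y i) : ℝ)) (fun i => (Fintype.card (X i) : ℝ))) →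
  ∃ g : Fin d → Fin (W + 1) → Fin n → Fin (W + 1) → ℂ,
    min (∏ i, Fintype.card (X i)) (∏ i, Fintype.card (Y i)) ≤ 3 * (tt d X Y B g 0).rank

/-! ### Part 4: polynomials -/

/-- COE: the tensor train as the matrix of a branching program -/
def COEStmt : Prop := ∀ (d n W : ℕ) (F : Finset (Finset (Fin d))) (σ : Equiv.Perm (Fin d)),
  (∀ t, t ≤ d → pre σ t ∈ F) → ∀ g : Fin d → Fin (W + 1) → Fin n → Fin (W + 1) → ℂ,
  ∃ w : Finset (Fin d) → Fin d → Fin (W + 1) → Fin n → Fin (W + 1) → ℂ,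
    ∀ (X Y : Fin d → Type) (A : ∀ i, Fin n → Matrix (X i) (Y i) ℂ) (p : ∀ i, X i) (q : ∀ i, Y i),
      app A (QQ F w d univ 0) p q = tt d (fun i => X (σ i)) (fun i => Y (σ i))
        (fun i => A (σ i)) g 0 (fun i => p (σ i)) (fun i => q (σ i))

/-- KRA: the rank does not change under invertible transformations -/
def KRAStmt : Prop := ∀ (d n : ℕ) (X Y : Fin d → Type) [∀ i, Fintype (X i)]
  [∀ i, DecidableEq (X i)] [∀ i, Fintype (Y i)] [∀ i, DecidableEq (Y i)]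
  (A : ∀ i, Fin n → Matrix (X i) (Y i) ℂ) (P : ∀ i, Matrix (X i) (X i) ℂ)
  (Q : ∀ i, Matrix (Y i) (Y i) ℂ), (∀ i, IsUnit (P i)) → (∀ i, IsUnit (Q i)) →
  ∀ f : MvPolynomial (Fin d × Fin n) ℂ,
    (app (fun i a => P i * A i a * Q i) f).rank = (app A f).rank

/-- the diagonal block number `J` of a tuple of matrices with labelled rows and columns -/
def blk {d n : ℕ} {X Y : Fin d → Type} (A : ∀ i, Fin n → Matrix (X i) (Y i) ℂ)
    (r : ∀ i, X i → ℕ) (c : ∀ i, Y i → ℕ) (J : Fin d → ℕ) (i : Fin d) (a : Fin n) :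
    Matrix {p // r i p = J i} {q // c i q = J i} ℂ :=
  (A i a).submatrix Subtype.val Subtype.val

/-- LOR: the rank of a block triangular matrix is at least the sum of the ranks of the blocks -/
def LORStmt : Prop := ∀ (d n : ℕ) (X Y : Fin d → Type) [∀ i, Fintype (X i)]
  [∀ i, DecidableEq (X i)] [∀ i, Fintype (Y i)] [∀ i, DecidableEq (Y i)]
  (A : ∀ i, Fin n → Matrix (X i) (Y i) ℂ) (r : ∀ i, X i → ℕ) (c : ∀ i, Y i → ℕ),
  (∀ i a p q, c i q < r i p → A i a p q = 0) → ∀ (f : MvPolynomial (Fin d × Fin n) ℂ)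
  (S : Finset (Fin d → ℕ)), ∑ J ∈ S, (app (blk A r c J) f).rank ≤ (app A f).rank

/-- UPR: upper bound for the rank -/
def UPRStmt : Prop := ∀ (d n : ℕ) (X Y : Fin d → Type) [∀ i, Fintype (X i)]
  [∀ i, DecidableEq (X i)] [∀ i, Fintype (Y i)] [∀ i, DecidableEq (Y i)]
  (A : ∀ i, Fin n → Matrix (X i) (Y i) ℂ) (r : ∀ i, X i → ℕ) (c : ∀ i, Y i → ℕ),
  (∀ i a p q, c i q < r i p → A i a p q = 0) →
  (∀ i I J, I ≤ J → Fintype.card {p // r i p = I} * Fintype.card {q // c i q = J} ≤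
      Fintype.card {p // r i p = J} * Fintype.card {q // c i q = I}) →
  ∀ (f : MvPolynomial (Fin d × Fin n) ℂ) (S : Finset (Fin d → ℕ)),
    (∀ p : (∀ i, X i), (fun i => r i (p i)) ∈ S) → (∀ q : (∀ i, Y i), (fun i => c i (q i)) ∈ S) →
    (app A f).rank ≤ ∑ J ∈ S, min (∏ i, Fintype.card {p // r i p = J i})
      (∏ i, Fintype.card {q // c i q = J i})

/-- CHN: from chains to orderings -/
def CHNStmt : Prop := ∀ (d : ℕ) (x : Fin d → ℝ) (C : ℝ) (F : Finset (Finset (Fin d))),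
  RReach x 0 C F ∅ univ → ∃ σ : Equiv.Perm (Fin d),
    ∀ t, t ≤ d → pre σ t ∈ F ∧ |∑ i ∈ pre σ t, x i| ≤ C

/-- SZE: a good ordering for given sizes -/
def SZEStmt : Prop := ∀ (d n C : ℕ) (F : Finset (Finset (Fin d))),
  (∀ x : Fin d → ℝ, (∀ i, |x i| ≤ 1) → |∑ i, x i| ≤ 1 → RReach x 0 C F ∅ univ) →
  ∀ x y : Fin d → ℕ, (∀ i, 0 < x i) → (∀ i, 0 < y i) → (∀ i, x i ≤ n * y i) →
    (∀ i, y i ≤ n * x i) → ∃ σ : Equiv.Perm (Fin d), (∀ t, t ≤ d → pre σ t ∈ F) ∧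
      (Bal (((n : ℝ) + 1) ^ (4 * C)) (fun i => (x (σ i) : ℝ)) (fun i => (y (σ i) : ℝ)) ∨
        Bal (((n : ℝ) + 1) ^ (4 * C)) (fun i => (y (σ i) : ℝ)) (fun i => (x (σ i) : ℝ)))

/-- BLK: the branching program for one semistable tuple -/
def BLKStmt : Prop := ∀ (d n C W : ℕ) (F : Finset (Finset (Fin d))),
  (∀ x : Fin d → ℝ, (∀ i, |x i| ≤ 1) → |∑ i, x i| ≤ 1 → RReach x 0 C F ∅ univ) →
  32 * d * (n + 1) ^ (4 * C) ≤ W + 1 →
  ∀ (X Y : Fin d → Type) [∀ i, Fintype (X i)] [∀ i, DecidableEq (X i)] [∀ i, Fintype (Y i)]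
    [∀ i, DecidableEq (Y i)] (B : ∀ i, Fin n → Matrix (X i) (Y i) ℂ), (∀ i, SS (B i)) →
    ∃ w : Finset (Fin d) → Fin d → Fin (W + 1) → Fin n → Fin (W + 1) → ℂ,
      min (∏ i, Fintype.card (X i)) (∏ i, Fintype.card (Y i)) ≤
        3 * (app B (QQ F w d univ 0)).rank

/-- GEN: countably many rank conditions on the weights can be met together -/
def GENStmt : Prop := ∀ (d n W : ℕ) (F : Finset (Finset (Fin d))) (κ : Type) [Countable κ]
  (X Y : κ → Fin d → Type) [∀ k i, Fintype (X k i)] [∀ k i, Fintype (Y k i)]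
  (A : ∀ k i, Fin n → Matrix (X k i) (Y k i) ℂ) (R : κ → ℕ),
  (∀ k, ∃ w : Finset (Fin d) → Fin d → Fin (W + 1) → Fin n → Fin (W + 1) → ℂ,
    R k ≤ 3 * (app (A k) (QQ F w d univ 0)).rank) →
  ∃ w : Finset (Fin d) → Fin d → Fin (W + 1) → Fin n → Fin (W + 1) → ℂ,
    ∀ k, R k ≤ 3 * (app (A k) (QQ F w d univ 0)).rank

/-- MLQ: the polynomials of the branching program are set-multilinear -/
def MLQStmt : Prop := ∀ (d n W : ℕ) (F : Finset (Finset (Fin d)))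
  (w : Finset (Fin d) → Fin d → Fin (W + 1) → Fin n → Fin (W + 1) → ℂ),
    SetMul (QQ F w d univ 0)

/-- CIQ: the circuit -/
def CIQStmt : Prop := ∀ (d n W : ℕ) (F : Finset (Finset (Fin d)))
  (w : Finset (Fin d) → Fin d → Fin (W + 1) → Fin n → Fin (W + 1) → ℂ),
    ∃ D : Circuit ℂ (Fin d × Fin n), D.WeaklySkew ∧ SMC D ∧ D.Computes (QQ F w d univ 0) ∧
      D.size ≤ 8 * (F.card + 1) * (d + 1) * (n + 1) * (W + 1) ^ 2

end Pool.Agent.H5.FR2
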